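import Pool.Agent.Helper32.BL3.Main

/-!
# Hopf's inequality for Davis' reflection trick, and for manifolds cut into right-angled blocks

A right-angled block of dimension `2n` is a compact manifold `P` whose boundary is divided into
mirrors by the dual cells of a flag triangulation `L` of the boundary. Davis' reflection trick
produces closed manifolds from `P` (finite quotients of `P` times the right-angled Coxeter group of
`L`, with the mirrors glued), aspherical if `P` is; the most common choice of `L` is the
barycentric subdivision of a polyhedral decomposition of the boundary. More generally one
considers manifolds cut into blocks along a hierarchy. One has
`χ(X) = ∑_b (χ(P_b) - 1 + κ(L_b))`, `κ(L) = ∑ (-1/2)^|τ|` over the simplices of `L`, the empty one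
included.

Here `Nerve` requires that the dimension is 4 (`n = 2`, any flag triangulation of a closed
3-manifold), or that `L` is the barycentric subdivision of a cell complex `T` of dimension
`2n - 1`, the boundaries of the cells of odd dimension are `EvenSphere`s (for instance boundaries
of convex polytopes; for simplices see `SP/Simp.lean`), and the links have no rational cohomology
below the top (for instance rational homology manifolds); `n` is arbitrary.

1. (`SP.Sphere`) Barycentric subdivisions of `EvenSphere`s have systems of reflections (a
   finite-dimensional vector space with an involution for each vertex, commuting along the edges)
   for which the complex of fixed spaces is exact, for all changes of signs. Let `T_i` be the union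
   of the first `i` facets. The barycentric subdivision of `T_i`, with the boundary coned off by a
   new vertex `e`, is obtained from that of `T_(i-1)` by splitting a vertex twice; the two edges
   that are contracted have as links the barycentric subdivision of the smaller `EvenSphere` of
   the definition. The first one is a suspension, the last one is the whole sphere.
2. (`SP.Up`) For `L` the barycentric subdivision of `T` the complex of `L` with the reflections is
   exact above the middle: remove the barycenters of the cells in the order of decreasing
   dimension; a cell of odd dimension does not matter because its boundary is good.
3. (`SP.Low`) Replace the reflections by the identity in the order of decreasing dimension. By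
   induction on chains, the error terms vanish below the middle, and so the cohomology of the
   complex below the middle is the cohomology of `L` with constant coefficients; in the middle
   dimension there is an injection.
4. (`Helper61.FS`, `Helper1.S2`, `BL.Compare`) For `n = 2` and `L` any flag 3-manifold the same
   holds: flag 2-spheres are suspensions or have a contractible edge.
5. (`BL.EulerB`) Summing the Euler characteristics over all changes of signs gives
   `(-1)^n (κ(L) - 1 + b_0(L) - b_1(L) + ... ± b_(n-1)(L)) ≥ 0`. For `n = 2`:
   `f_1 - 5 f_0 + 16 ≥ 16 b_1` for all flag 3-manifolds.
6. (`BL.Pair`) The exact sequence of the pair of the block and its boundary, cut off in the middle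
   dimension, gives the inequality with the excess of the block. All this may be done in a finite
   covering of the block, dividing by the number of sheets.
-/

open Finset Pool.Agent.Helper32.BL3

namespace Pool.Agent.Results.MP_9d0d86_gt.DavisTrick

/-- **Theorem.** Let `X` be a closed manifold of dimension `2n` cut into right-angled blocks along a
hierarchy, each of them with a certificate `Piece` with excess `r b`. Then
`(-1)^n χ(X) ≥ ∑ r b`. In particular Hopf's inequality `(-1)^n χ(X) ≥ 0` holds if all the excesses
are nonnegative, for instance if the blocks have finite coverings with `H^j(P) = 0` for `j > n` and
`H^j(P, ∂P) = 0` for `j < n`, for which `r = b_n / m`. -/
theorem result (n : ℕ) (X : BlockComplex) (r : X.Block → ℚ)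
    (h : ∀ b, Piece (X.nerve b) n (X.chi b) (r b)) : ∑ b, r b ≤ (-1) ^ n * X.euler :=
  hopf_blocks n X r h

end Pool.Agent.Results.MP_9d0d86_gt.DavisTrick
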