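import Pool.Agent.Helper82.TI2.Real2

/-!
# Hopf's inequality for closed cubical manifolds: metric conditions on the links of the edges

Let `X` be a closed cubical manifold of dimension `2k` whose vertex links `L` are shellable and
complete simplicial fans in `ℝ^(2k)`, with no metric condition. Here is proved Hopf's inequality
`(-1)^k χ(X) ≥ 0` under a metric condition on the link `M` of each vertex of `L` (the links of the
edges of `X`) only: `M` is a complete simplicial fan in `ℝ^(2k-1)` with rays spanned by vectors
`q_w`, and there are shorter vectors `y_w` with the same inner products for adjacent vertices. That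
is: the right-angled Coxeter group of `M` acts on `ℝ^(2k-1, N)`, the generators are the reflections
in vectors `e_w = (q_w, y_w)` of positive norm, and the positive parts form the fan.

PROOF. For a system of vectors `p_v` in `K^d`, `d = 2k`, spanning `K^d` on each facet, and a generic
vector `c` let `X_v` be the function on the facets `f` of `L` whose value is the coordinate of `c` at
`v` with respect to the basis `p_u`, `u ∈ f`. For a face `τ` let `F_i(τ)` be the space of the
functions on the facets containing `τ` given by polynomials of degree less than `i` in the `X_v`,
with values in a Clifford module, and let `D = ∑ X_v G_v`, where the `G_v` are Clifford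
multiplications by vectors of a pseudo-Euclidean space with the same inner products as the `p_v` for
equal and adjacent vertices, so that `D^2 = |c|^2`.
* Exactness at `(τ, i)`: `z, Dz ∈ F_{i+1}(τ)` implies `z ∈ F_i(τ) + D F_i(τ)`. By a Čech argument
  along the shelling (`Glue2`, `Rex2`) it follows for all `2i + |τ| < d` from the critical case
  `2i + |τ| + 1 = d`; as `d` is even, `τ` is not empty in the critical case.
* Exactness is a condition on dimensions (`BDim2`): it holds for the generic member of a family if
  it holds for one (`Poly`, `open_rank`).
* The family (`Family`): for every vertex `j` of `L` the data of the link of `j` give vectors for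
  all vertices (`0` outside the star of `j`), and the family consists of the superpositions of
  these systems; it has the property of inner products because the Clifford module has both signs.
  At the `j`-th unit vector the critical exactness for the faces containing `j` (`Star`) is the
  theorem of `TI/Main.lean` (`all_VV`, proved with Clifford multiplication by dual vectors and
  signatures) for the link of `j`.
* The final inequality (`Fin2`): the spaces `F_k + D F_k` and `F_k + D' F_k`, `D'` the transpose of
  `D`, are orthogonal for the form of residues, and both have the dimension
  `2 h_{k-1} - 2 h_{k-2} + ...` (times a constant); this is the Charney-Davis inequality.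
-/

namespace Pool.Agent.Results.MP_9d0d86_gt.EdgeLinkFans

open Pool.Agent.Helper51.CD.Cube Pool.Agent.Helper82.TI.Fan Pool.Agent.Helper82.TI2

/-- **Theorem.** Let `X` be a closed cubical manifold of dimension `2k`. Suppose that the link of
every vertex of `X` is shellable and a complete simplicial fan in `ℝ^(2k)`, and that the link of
every vertex of this link is a complete simplicial fan in `ℝ^(2k-1)` with rays spanned by vectors
`q w`, for which there are shorter vectors `y w` in some `ℝ^N` with the same inner products for
adjacent vertices. Then `(-1)^k χ(X) ≥ 0`. -/
theorem result (k : ℕ) (X : CubeComplex)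
    (h : ∀ x : X.Vert, ∃ (p : X.Dir x → Fin (2 * k) → ℝ) (rk : Finset (X.Dir x) → ℕ),
      IsFan (X.link x) p ∧ IsShelling (X.link x) (2 * k) rk ∧
      ∀ v : X.Dir x, ∃ (N : ℕ) (q : {w // w ∈ nb (X.link x) v} → Fin (2 * k - 1) → ℝ)
        (y : {w // w ∈ nb (X.link x) v} → Fin N → ℝ), IsFan (LkG (X.link x) v) q ∧
        (∀ w, ∑ j, y w j * y w j < ∑ j, q w j * q w j) ∧
        (∀ u w, (LkG (X.link x) v).Adj u w →
          ∑ j, y u j * y w j = ∑ j, q u j * q w j)) :
    0 ≤ (-1) ^ k * X.euler := by
  classical
  have h1 : (0 : ℚ) ≤ (-1 : ℚ) ^ k * (X.euler : ℚ) := by
    rw [X.euler_eq, Finset.mul_sum]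
    refine Finset.sum_nonneg (fun x _ => ?_)
    obtain ⟨p, rk, hF, hr, h2⟩ := h x
    have h3 := kappa_edge rfl hF hr (fun v => by
      obtain ⟨N, q, y, h4⟩ := h2 v
      exact ⟨N, q, y, h4⟩)
    have h4 : commonNbrs (X.link x) ∅ = Finset.univ := by
      ext v
      simp [mem_commonNbrs]
    rw [h4]
    exact h3
  exact_mod_cast h1

end Pool.Agent.Results.MP_9d0d86_gt.EdgeLinkFans
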