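import Pool.Agent.Helper70.FS.Final

/-!
# A Freiheitssatz and Hopf's inequality for compact four-dimensional manifolds

`G` is the fundamental group of a compact four-dimensional manifold or Poincaré duality pair
`(P, ∂P)` with orientation character `w` (`w = 1` in the oriented case) and `D₁, ..., D₄` are the
boundary matrices of the cellular chain complex of the universal cover of `P`, as left modules over
the group ring `R[G]`. The closed case is `p = 0`; in general the boundary has `p` components, and
`H i` is the image in `G` of the fundamental group of the `i`-th component. Only the exactness in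
degrees `0` and `1` of this complex and in degrees `4` and `3` of its dual, the chain complex of the
pair, is used. Here the cokernel of the dual complex in degree `1` is described by `E`: the sequence
`R[G]^n₂ → R[G]^n₃ → R[G]^n₄ ⊕ ⨁ᵢ R[G/Hᵢ] → R → 0` is exact (relative cellular chains modulo
boundaries; `H₁` of the universal cover vanishes, and its boundary has the components `G/Hᵢ`).

`N = rInf G` is the intersection of the rational derived series `N₀ = G`,
`N_{s+1} = {g ∈ N_s | g ^ k ∈ [N_s, N_s] for some k > 0}` of `G`, and `k` is the number of `i` with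
`H i ≤ N`. The group `G` carries a matroid `M` of finite rank at least `1 - (χ + k) / 2` such that

* the loops of `M` are the elements of `N`;
* independent sets freely generate free subgroups of `G`, even modulo `N`;
* more generally, subgroups `A i` contained in the flats spanned by disjoint sets `J i` with
  independent union generate their free product modulo `N` (the Freiheitssatz for subgroups);
* the flats of `M` are subgroups `K` with `K ∩ h⁻¹ K h ⊆ N` for all `h ∉ K`;
* every generating set `X` of `G` contains a base of `M`, and so does `X \ {x}` unless `G / N` is the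
  free product of the image of the subgroup generated by `x` and that of the one generated by
  `X \ {x}`;
* if `G` is generated by `N` and `r` linked sets, then the rank of `M` is at most `r`, and hence
  `χ ≥ 2 - 2 r - k`, and it is `r` only if `G / N` is the free product of the `r` images of the
  groups generated by the linked sets; in particular Hopf's inequality `χ ≥ 0` holds if `r = 1` and
  `k = 0`;
* if moreover `H¹(G; R[G]) = 0` (which holds for closed aspherical manifolds, and for aspherical
  manifolds with aspherical boundary whose components inject on fundamental groups), then the rank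
  is at most `r - 1` if `G` is generated by `r ≥ 2` linked sets which generate subgroups meeting `N`
  trivially, and `X \ {x}` contains a base for every generating set `X` of `G` if `X \ {x}` generates
  a nontrivial subgroup meeting `N` trivially.

A set is linked if all its elements outside `N` are equivalent for the smallest equivalence relation
such that `u ~ v` if some product `a₁ b₁ ⋯ aₗ bₗ`, `l > 0`, is in `N` where all `aᵢ ~ u`, all
`bᵢ ~ v` and all `aᵢ`, `bᵢ` are outside `N`, and `u ~ v v'` if `u ~ v`, `u ~ v'`, `v v'` is not in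
`N`.
-/

set_option autoImplicit false

open Pool.Agent.Helper35.SH Pool.Agent.Helper45.FH Pool.Agent.Helper70.FS
open Pool.Agent.Helper32.RF (IsRelStart)
open scoped Matrix

namespace Pool.Agent.Results.MP_9d0d86_gt.Freiheitssatz

/-- **A Freiheitssatz for compact four-dimensional manifolds.** -/
theorem result {R : Type} [CommRing R] [Algebra R ℚ] {G : Type} [Group G] [Group.FG G]
    (w : G →* ℤˣ) (hw : ∀ (g : G) (k : ℕ), 0 < k → g ^ k ∈ commutator G → w g = 1)
    {n₀ n₁ n₂ n₃ n₄ p : ℕ}
    (D₁ : Matrix (Fin n₁) (Fin n₀) (MonoidAlgebra R G))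
    (D₂ : Matrix (Fin n₂) (Fin n₁) (MonoidAlgebra R G))
    (D₃ : Matrix (Fin n₃) (Fin n₂) (MonoidAlgebra R G))
    (D₄ : Matrix (Fin n₄) (Fin n₃) (MonoidAlgebra R G))
    (H : Fin p → Subgroup G) (E : Matrix (Fin n₃) (Fin p) (MonoidAlgebra R G))
    (h32 : D₃ * D₂ = 0)
    (hstart : IsStart D₁ D₂) (hdual : IsRelStart H (dual w D₄) E (dual w D₃))
    (χ : ℤ) (hχ : χ = (n₀ : ℤ) - n₁ + n₂ - n₃ + n₄)
    (k : ℕ) (hk : k = {i | H i ≤ rInf G}.ncard) :
    -- loops, free subgroups, free products and flats
    ∃ M : Matroid G, IsFreeMatroid M ∧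
      -- the rank is finite and at least `1 - (χ + k) / 2`
      (∀ B : Set G, M.IsBase B → B.Finite ∧ 2 - χ - k ≤ 2 * (B.ncard : ℤ)) ∧
      -- generating sets contain bases, even without any given generator, unless `G / rInf G` is a
      -- free product
      (∀ X : Set G, Subgroup.closure X = ⊤ → HasBase M X ∧ ∀ x ∈ X, HasBase M (X \ {x}) ∨
        (x ∉ rInf G ∧ FreeMod fun i : Bool => Subgroup.closure (if i then {x} else X \ {x}))) ∧
      -- if `rInf G` and `r` linked sets generate `G` then the rank is at most `r`, and equal to `r`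
      -- only if `G / rInf G` is the free product of the `r` images
      (∀ (r : ℕ) (X : Fin r → Set G), Subgroup.closure ((rInf G : Set G) ∪ ⋃ i, X i) = ⊤ →
        (∀ i, IsLinked (X i)) → M.eRank ≤ r ∧
          (M.eRank = r → (∀ i, ¬ X i ⊆ rInf G) ∧ FreeMod fun i => Subgroup.closure (X i))) ∧
      -- if moreover `H¹(G; R[G]) = 0`
      ((∀ x : Fin n₁ → MonoidAlgebra R G, x ᵥ* dual w D₂ = 0 →
          ∃ y : Fin n₀ → MonoidAlgebra R G, y ᵥ* dual w D₁ = x) →
        (∀ (r : ℕ) (X : Fin r → Set G), 2 ≤ r → Subgroup.closure (⋃ i, X i) = ⊤ →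
          (∀ i, IsLinked (X i) ∧ Subgroup.closure (X i) ⊓ rInf G = ⊥) → M.eRank < r) ∧
        (∀ X : Set G, Subgroup.closure X = ⊤ → ∀ x ∈ X,
          Subgroup.closure (X \ {x}) ⊓ rInf G = ⊥ → Subgroup.closure (X \ {x}) ≠ ⊥ →
          HasBase M (X \ {x}))) := by
  obtain ⟨M, h1, h2, h3, h4, hS, h5⟩ := Pool.Agent.Helper70.FS.main w hw h32 hstart hdual
  have h4' : ∀ S : Set G, ∃ K : Subgroup G, M.closure S = K := fun S =>
    (h4 S).imp fun K hK => hK.1
  have hrk : ∀ B : Set G, M.IsBase B → M.eRank = (B.ncard : ℕ∞) := fun B hB => by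
    rw [← hB.encard_eq_eRank, (h5 B hB).1.cast_ncard_eq]
  refine ⟨M, ⟨h1, h2, h3, fun ι J A hd hJ hA => lift_injective_of_skew hS J A hd hJ hA, h4⟩,
    ?_, ?_, ?_, ?_⟩
  · intro B hB
    obtain ⟨h7, h8⟩ := h5 B hB
    refine ⟨h7, ?_⟩
    rw [← hk] at h8
    omega
  · intro X hX
    refine ⟨?_, fun x _ => ?_⟩
    · exact exists_base_subset h1 h4 X X
        (M.subset_closure X (by rw [h1]; exact Set.subset_univ _)) hX
    · rcases exists_base_or h1 h2 h4' X hX x with h6 | ⟨hx, J, hd, hJ, hA⟩
      · exact Or.inl h6
      · exact Or.inr ⟨hx, lift_injective_of_skew hS J _ hd hJ hA⟩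
  · intro r X hX hl
    obtain ⟨B, hB, hc, heq⟩ := exists_base_card_le' h1 h2 h4' hS r X hX hl
    rw [hrk B hB]
    refine ⟨by exact_mod_cast hc, fun h6 => ?_⟩
    obtain ⟨h7, J, hd, hJ, hA⟩ := heq (by exact_mod_cast h6)
    refine ⟨fun i h8 => ?_, lift_injective_of_skew hS J _ hd hJ hA⟩
    obtain ⟨g, hg, hg'⟩ := h7 i
    exact hg' (h8 hg)
  · intro hex
    have : Nontrivial R := (algebraMap R ℚ).domain_nontrivial
    have hG : NoSplit G := noSplit w hstart hex
    refine ⟨?_, ?_⟩
    · intro r X hr hX hl
      obtain ⟨B, hB, hc⟩ := exists_base_card_lt h1 h2 h4' hS hG r hr X hX (fun i => (hl i).1)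
        (fun i => (hl i).2)
      rw [hrk B hB]
      exact_mod_cast hc
    · intro X hX x _ hN hx
      exact exists_base_subset_diff h1 h2 h4' hS hG X hX x hN hx

end Pool.Agent.Results.MP_9d0d86_gt.Freiheitssatz
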