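import Pool.Agent.Helper32.RF.FinalF

/-!
# Hopf's inequality in dimension four and large groups

`G` is the fundamental group, `D₁, ..., D₄` are the boundary matrices of the cellular chain complex
of the universal cover, as left modules over the group ring `R[G]`, of a finite oriented
four-dimensional Poincaré duality pair (for instance of a compact oriented 4-manifold `P`, closed or
with boundary); `H i`, `i : Fin r`, are the images in `G` of the fundamental groups of the boundary
components. Only the exactness in degrees `0` and `1` of the complex and of its dual, which is the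
chain complex of the universal cover of `P` relative to the boundary, is used; for `r = 0`
`IsRelStart` is `IsStart`. The number `k` counts the boundary components which are invisible in
`H₁(G; ℚ)`.
-/

set_option autoImplicit false

open Pool.Agent.Helper35.SH Pool.Agent.Helper32.RF

namespace Pool.Agent.Results.MP_9d0d86_gt.NegativeEulerLarge

/-- **Four-dimensional Poincaré duality pairs with `χ + k < 0` have large fundamental groups**;
moreover the Euler characteristic bounds the dimensions of the spaces of crossed homomorphisms of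
every linear representation and of its dual. -/
theorem result {R : Type} [CommRing R] [Algebra R ℚ] {G : Type} [Group G]
    [Group.IsFinitelyPresented G] {r : ℕ} (H : Fin r → Subgroup G) {n₀ n₁ n₂ n₃ n₄ : ℕ}
    (D₁ : Matrix (Fin n₁) (Fin n₀) (MonoidAlgebra R G))
    (D₂ : Matrix (Fin n₂) (Fin n₁) (MonoidAlgebra R G))
    (D₃ : Matrix (Fin n₃) (Fin n₂) (MonoidAlgebra R G))
    (D₄ : Matrix (Fin n₄) (Fin n₃) (MonoidAlgebra R G))
    (E : Matrix (Fin n₃) (Fin r) (MonoidAlgebra R G))
    (h32 : D₃ * D₂ = 0)
    (hstart : IsStart D₁ D₂) (hdual : IsRelStart H (dual 1 D₄) E (dual 1 D₃))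
    (χ : ℤ) (hχ : χ = (n₀ : ℤ) - n₁ + n₂ - n₃ + n₄) :
    (χ + {i | ∀ f : G →* Multiplicative ℤ, H i ≤ f.ker}.ncard < 0 →
      ∃ K : Subgroup G, K.FiniteIndex ∧ ∃ f : K →* FreeGroup (Fin 2), Function.Surjective f) ∧
    ∀ (F : Type) [Field F] [Algebra R F] (k : ℕ) (ρ : G →* Matrix (Fin k) (Fin k) F),
      (2 - χ) * k ≤ (Module.finrank F (Z1 ρ) : ℤ) + Module.finrank F (Z1 (contra 1 ρ)) +
        ∑ i, Module.finrank F (inv (contra 1 ρ) (H i)) := by
  classical
  constructor
  · intro hneg
    refine large_of_negative_rel H hstart hdual h32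
      (Finset.univ.filter fun i => ∀ f : G →* Multiplicative ℤ, H i ≤ f.ker) ?_ ?_
    · intro i hi
      rw [Finset.mem_filter, not_and] at hi
      have h1 := hi (Finset.mem_univ i)
      push Not at h1
      obtain ⟨f, hf⟩ := h1
      obtain ⟨g, hg, hg'⟩ := SetLike.not_le_iff_exists.1 hf
      exact ⟨f, g, hg, hg'⟩
    · have h1 : {i | ∀ f : G →* Multiplicative ℤ, H i ≤ f.ker}.ncard =
          (Finset.univ.filter fun i => ∀ f : G →* Multiplicative ℤ, H i ≤ f.ker).card := by
        rw [← Set.ncard_coe_finset]
        congr 1
        ext i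
        simp
      rw [h1] at hneg
      simp only [Fintype.card_fin]
      omega
  · intro F _ _ k ρ
    have hFG : Group.FG G := by
      obtain ⟨n, π, hπ, _⟩ := Group.IsFinitelyPresented.out (G := G)
      exact Group.fg_of_surjective hπ
    have h1 := finrank_add_finrank_ge_rel 1 ρ H hstart hdual h32
    simp only [Fintype.card_fin] at h1
    have h2 : (2 * k + (n₁ + n₃) * k : ℤ) ≤ Module.finrank F (Z1 ρ) +
        Module.finrank F (Z1 (contra 1 ρ)) + (n₀ + n₂ + n₄) * k +
        ∑ i, (Module.finrank F (inv (contra 1 ρ) (H i)) : ℤ) := by exact_mod_cast h1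
    rw [hχ]
    push_cast
    linarith

end Pool.Agent.Results.MP_9d0d86_gt.NegativeEulerLarge
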